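import Pool.Agent.H75.GS.Targets

/-!
# Row SYX of the board gsq_modules: the frozen and the aware instances (MP_0f8dca_lc)
-/

set_option autoImplicit false

namespace Pool.Agent.H13.GS

open Finset Filter Pool.Agent.H6.NB Pool.Agent.H70.OQ Pool.Agent.H75.GS

/-- the constant function `false` is a formula -/
theorem fm_false {V : Type} (S t : ℕ) : ∀ d : ℕ, Fm (V := V) S t d fun _ => false := by
  intro d
  cases d with
  | zero => exact ⟨Pool.Agent.H68.AC.DT.leaf false, Nat.zero_le _, fun _ => rfl⟩
  | succ d =>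
    refine ⟨0, fun i => i.elim0, fun i => i.elim0, Nat.zero_le _, fun i => i.elim0, fun y => ?_⟩
    constructor
    · intro h
      exact absurd h (by simp)
    · rintro ⟨i, -⟩
      exact i.elim0

/-- a variable is a decision tree of depth one -/
theorem fm_var {V : Type} (S : ℕ) (v : V) : Fm S 1 0 fun y : V → Bool => y v := by
  refine ⟨Pool.Agent.H68.AC.DT.node v (.leaf false) (.leaf true), ?_, fun y => ?_⟩
  · simp [Pool.Agent.H68.AC.DT.depth]
  · show cond (y v) true false = y v
    cases y v <;> rfl

theorem fm_kst {B Ω : Type} {nn qb : Ω → ℕ} (S : ℕ) (e : Ω → Bool) (v : PosG B Ω nn qb) :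
    Fm S 1 0 fun y : PosG B Ω nn qb → Bool => kst e y v := by
  cases v with
  | cst b => exact fm_var S (PosG.cst b)
  | bas a => exact fm_var S (PosG.bas a)
  | key s => exact ⟨Pool.Agent.H68.AC.DT.leaf (e s), Nat.zero_le _, fun _ => rfl⟩
  | blk s i v => exact fm_var S (PosG.blk s i v)

theorem kst_low {B Ω : Type} {nn qb : Ω → ℕ} (lev : Ω → ℕ) (j : ℕ) (e : Ω → Bool)
    {y y' : PosG B Ω nn qb → Bool} (h : ∀ c, LwG lev j c → y c = y' c) :
    ∀ c, LwG lev j c → kst e y c = kst e y' c := by
  intro c hc
  cases c with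
  | cst b => exact h _ hc
  | bas a => exact h _ hc
  | key s => rfl
  | blk s i v => exact h _ hc

theorem pf_SYX (hFMS : T_FMS) : T_SYX := by
  intro B Ω nn qb D lev S t d h a0 hS ht hD
  refine ⟨fun e => ⟨fun s => ?_, fun s y y' hy => ?_, hD.lt⟩,
    ⟨fun s => ?_, fun s y y' hy => ?_, hD.lt⟩⟩
  · by_cases hs : lev s < a0
    · have h1 : Dfr D lev a0 e s = fun y => D s fun v => kst e y v := by
        funext y
        simp [Dfr, hs]
      rw [h1]
      have h2 := hFMS (PosG B Ω nn qb) (PosG B Ω nn qb) S t 1 d (D s) (fun v y => kst e y v)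
        (fm_kst S e) (hD.fm s)
      rwa [mul_one] at h2
    · have h1 : Dfr D lev a0 e s = fun _ => false := by
        funext y
        simp [Dfr, hs]
      rw [h1]
      exact fm_false S t d
  · unfold Dfr
    rw [hD.low s _ _ (kst_low lev (lev s) e hy)]
  · by_cases hs : lev s < a0
    · have h1 : Daw D lev a0 s = fun _ => false := by
        funext y
        simp [Daw, hs]
      rw [h1]
      exact fm_false S t d
    · have h1 : Daw D lev a0 s = D s := by
        funext y
        simp [Daw, hs]
      rw [h1]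
      exact hD.fm s
  · unfold Daw
    rw [hD.low s _ _ hy]

end Pool.Agent.H13.GS
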