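import Pool.Agent.H75.GS.Targets

/-!
# Row UNX of the board gsq_modules: a universal machine for the first machines (MP_0f8dca_lc)
-/

set_option autoImplicit false

namespace Pool.Agent.H13.GS

open Finset Filter Pool.Agent.H6.NB Pool.Agent.H70.OQ

theorem alt_const {R : List Bool → Prop} (hR : R []) (p : Prop) :
    ∀ (j : ℕ) (b : Bool), Alt R b j (fun _ => p) ↔ p := by
  intro j
  induction j with
  | zero =>
    intro b
    cases b <;> exact Iff.rfl
  | succ j ih =>
    intro b
    cases b with
    | true =>
      constructor
      · rintro ⟨w, _, h⟩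
        exact (ih false).1 h
      · intro h
        exact ⟨[], hR, (ih false).2 h⟩
    | false =>
      constructor
      · intro h
        exact (ih true).1 (h [] hR)
      · intro h w _
        exact (ih true).2 h

theorem alt_take {R : List Bool → Prop} (hR : R []) (j : ℕ) :
    ∀ (k : ℕ) (b : Bool) (P : List (List Bool) → Prop),
      Alt R b (k + j) (fun ws => P (ws.take k)) ↔ Alt R b k P := by
  intro k
  induction k with
  | zero =>
    intro b P
    have h : (fun ws : List (List Bool) => P (ws.take 0)) = fun _ => P [] := by
      funext ws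
      simp
    rw [h, alt_const hR]
    cases b <;> exact Iff.rfl
  | succ k ih =>
    intro b P
    have e : k + 1 + j = (k + j) + 1 := by omega
    rw [e]
    cases b with
    | true =>
      constructor
      · rintro ⟨w, hw, h⟩
        exact ⟨w, hw, (ih false fun ws => P (w :: ws)).1 h⟩
      · rintro ⟨w, hw, h⟩
        exact ⟨w, hw, (ih false fun ws => P (w :: ws)).2 h⟩
    | false =>
      constructor
      · intro h w hw
        exact (ih true fun ws => P (w :: ws)).1 (h w hw)
      · intro h w hw
        exact (ih true fun ws => P (w :: ws)).2 (h w hw)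

/-- a machine with additional quantifiers -/
def lift {k : ℕ} (V : Machine k) {K : ℕ} (h : k ≤ K) : Machine K where
  c := V.c
  tree x ws := V.tree x (ws.take k)
  depth_le x ws hl hw := V.depth_le x (ws.take k) (by rw [List.length_take, hl, min_eq_left h])
    fun w hw' => hw w (List.mem_of_mem_take hw')
  short x ws hl hw := V.short x (ws.take k) (by rw [List.length_take, hl, min_eq_left h])
    fun w hw' => hw w (List.mem_of_mem_take hw')

theorem lift_lang {k : ℕ} (V : Machine k) {K : ℕ} (h : k ≤ K) (O : List Bool → Bool)
    (x : List Bool) : x ∈ (lift V h).lang O ↔ x ∈ V.lang O := by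
  obtain ⟨j, rfl⟩ := Nat.exists_eq_add_of_le h
  exact alt_take (R := fun w => w.length ≤ x.length ^ V.c + V.c) (Nat.zero_le _) j k true
    fun ws => (V.tree x ws).eval O = true

/-- a dummy machine -/
def dummy (K : ℕ) : Machine K where
  c := 0
  tree _ _ := DT.leaf false
  depth_le _ _ _ _ := by simp [DT.depth]
  short _ _ _ _ := trivial

theorem pf_UNX (hUNG : T_UNG) : Pool.Agent.H75.GS.T_UNX := by
  intro κ V r
  let K : ℕ := (Finset.range (r + 1)).sup κ
  have hK : ∀ i ≤ r, κ i ≤ K := fun i hi =>
    Finset.le_sup (f := κ) (Finset.mem_range.2 (Nat.lt_succ_of_le hi))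
  let W : ℕ → Machine K := fun i => if h : κ i ≤ K then lift (V i) h else dummy K
  obtain ⟨prog, h1, h2⟩ := hUNG K W
  refine ⟨K, prog, h1, fun i hi x O => ?_⟩
  have hW : W i = lift (V i) (hK i hi) := dif_pos (hK i hi)
  have h3 := h2 i x O
  rw [hW] at h3
  rw [← lift_lang (V i) (hK i hi)]
  exact h3

end Pool.Agent.H13.GS
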